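import Pool.Agent.Helper42.Speed.Kingman

/-!
# Speed from regenerations
-/

namespace Pool.Agent.Helper42.Speed

open MeasureTheory Filter Topology ENNReal Function

/-- deterministic interpolation: if `S` is a strictly increasing sequence of times starting at `0`
with `S m / m → b > 0`, and `d (S m) / m → a`, then `d n / n → a / b` for a 1-Lipschitz `d`
with `d 0 = 0`. -/
theorem interpolate (S : ℕ → ℕ) (hS0 : S 0 = 0) (hS : StrictMono S) (d : ℕ → ℝ)
    (hd0 : d 0 = 0) (hlip : ∀ n, |d (n + 1) - d n| ≤ 1) (a b : ℝ) (hb : 0 < b)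
    (h1 : Tendsto (fun m : ℕ => d (S m) / m) atTop (𝓝 a))
    (h2 : Tendsto (fun m : ℕ => (S m : ℝ) / m) atTop (𝓝 b)) :
    Tendsto (fun n : ℕ => d n / n) atTop (𝓝 (a / b)) := by
  have hlip' : ∀ m n, |d (m + n) - d m| ≤ n := by
    intro m n
    induction n with
    | zero => simp
    | succ n ih =>
      have h := abs_sub_le (d (m + (n + 1))) (d (m + n)) (d m)
      have h' := hlip (m + n)
      rw [show m + n + 1 = m + (n + 1) by ring] at h'
      push_cast
      linarith
  have hdn : ∀ n, |d n| ≤ n := by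
    intro n
    have := hlip' 0 n
    rwa [zero_add, hd0, sub_zero] at this
  -- the ratio along regeneration times
  have h3 : Tendsto (fun m : ℕ => d (S m) / (S m : ℝ)) atTop (𝓝 (a / b)) := by
    refine (h1.div h2 hb.ne').congr' ?_
    filter_upwards [eventually_gt_atTop 0] with m hm
    have hm' : (m : ℝ) ≠ 0 := by exact_mod_cast hm.ne'
    show d (S m) / m / ((S m : ℝ) / m) = d (S m) / S m
    rw [div_div_div_cancel_right₀ hm']
  have h4 : Tendsto (fun m : ℕ => ((S (m + 1) : ℝ) - S m) / S m) atTop (𝓝 0) := by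
    have h5 : Tendsto (fun m : ℕ => (S (m + 1) : ℝ) / ((m + 1 : ℕ) : ℝ)) atTop (𝓝 b) :=
      h2.comp (tendsto_add_atTop_nat 1)
    have h6 : Tendsto (fun m : ℕ => ((m + 1 : ℕ) : ℝ) / (m : ℝ)) atTop (𝓝 1) := by
      have : Tendsto (fun m : ℕ => 1 + 1 / (m : ℝ)) atTop (𝓝 (1 + 0)) :=
        tendsto_const_nhds.add tendsto_one_div_atTop_nhds_zero_nat
      rw [add_zero] at this
      apply this.congr'
      filter_upwards [eventually_gt_atTop 0] with m hm
      have hm' : (m : ℝ) ≠ 0 := by exact_mod_cast hm.ne'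
      push_cast
      field_simp
    have h7 := (((h5.mul h6).sub h2).div h2 hb.ne')
    rw [mul_one, sub_self, zero_div] at h7
    refine h7.congr' ?_
    filter_upwards [eventually_gt_atTop 0] with m hm
    have hm' : (m : ℝ) ≠ 0 := by exact_mod_cast hm.ne'
    have hm1 : ((m + 1 : ℕ) : ℝ) ≠ 0 := by positivity
    have hSm : (S m : ℝ) ≠ 0 := by
      have : 0 < S m := by
        have := hS hm
        omega
      exact_mod_cast this.ne'
    show ((S (m + 1) : ℝ) / ((m + 1 : ℕ) : ℝ) * (((m + 1 : ℕ) : ℝ) / m) - (S m : ℝ) / m) /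
      ((S m : ℝ) / m) = _
    field_simp
  -- the index of the last regeneration before `n`
  set M : ℕ → ℕ := fun n => Nat.findGreatest (fun m => S m ≤ n) n with hM
  have hM1 : ∀ n, S (M n) ≤ n := by
    intro n
    exact Nat.findGreatest_spec (P := fun m => S m ≤ n) (Nat.zero_le n) (by simp [hS0])
  have hSid : ∀ m, m ≤ S m := fun m => hS.le_apply
  have hM2 : ∀ n, n < S (M n + 1) := by
    intro n
    by_contra h
    have h' : S (M n + 1) ≤ n := not_lt.1 h
    have h6 : M n + 1 ≤ M n :=
      Nat.le_findGreatest (P := fun m => S m ≤ n) (le_trans (hSid _) h') h'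
    omega
  have hM3 : Tendsto M atTop atTop := by
    rw [tendsto_atTop]
    intro K
    filter_upwards [eventually_ge_atTop (S K)] with n hn
    exact Nat.le_findGreatest (P := fun m => S m ≤ n) (le_trans (hSid K) hn) hn
  have h5 := h3.comp hM3
  have h6 := (h4.comp hM3).const_mul 2
  rw [mul_zero] at h6
  have h7 : Tendsto (fun n : ℕ => d n / n - d (S (M n)) / (S (M n) : ℝ)) atTop (𝓝 0) := by
    apply squeeze_zero_norm' _ h6
    filter_upwards [hM3.eventually (eventually_gt_atTop 0), eventually_gt_atTop 0] with n hn hn0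
    have hSpos : (0 : ℝ) < S (M n) := by
      have : 0 < S (M n) := by
        have := hS hn
        omega
      exact_mod_cast this
    have hnpos : (0 : ℝ) < n := by exact_mod_cast hn0
    have hSn : (S (M n) : ℝ) ≤ n := by exact_mod_cast hM1 n
    have hSn' : (n : ℝ) ≤ S (M n + 1) := by exact_mod_cast (hM2 n).le
    obtain ⟨k, hk⟩ := Nat.exists_eq_add_of_le (hM1 n)
    have hdk : |d n - d (S (M n))| ≤ n - S (M n) := by
      have h8 := hlip' (S (M n)) k
      rw [← hk] at h8
      have : (n : ℝ) = S (M n) + k := by exact_mod_cast hk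
      linarith
    have h9 := hdn n
    rw [Real.norm_eq_abs]
    show |d n / n - d (S (M n)) / (S (M n) : ℝ)| ≤
      2 * (((S (M n + 1) : ℝ) - S (M n)) / S (M n))
    have h10 : d n / n - d (S (M n)) / (S (M n) : ℝ) =
        (d n - d (S (M n))) / S (M n) - d n / n * ((n - S (M n)) / S (M n)) := by
      field_simp
      ring
    have h11 : |(d n - d (S (M n))) / (S (M n) : ℝ)| ≤ (n - S (M n)) / S (M n) := by
      rw [abs_div, abs_of_pos hSpos]
      exact div_le_div_of_nonneg_right hdk hSpos.le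
    have h12 : |d n / n * ((n - S (M n)) / S (M n))| ≤ (n - S (M n)) / S (M n) := by
      rw [abs_mul, abs_div, abs_of_pos hnpos,
        abs_of_nonneg (div_nonneg (sub_nonneg.2 hSn) hSpos.le)]
      apply mul_le_of_le_one_left (div_nonneg (sub_nonneg.2 hSn) hSpos.le)
      exact (div_le_one hnpos).2 h9
    have h13 : ((n : ℝ) - S (M n)) / S (M n) ≤ ((S (M n + 1) : ℝ) - S (M n)) / S (M n) :=
      div_le_div_of_nonneg_right (by linarith) hSpos.le
    rw [h10]
    have h14 := abs_sub ((d n - d (S (M n))) / (S (M n) : ℝ)) (d n / n * ((n - S (M n)) / S (M n)))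
    linarith
  have h8 := h7.add h5
  rw [zero_add] at h8
  refine h8.congr fun n => ?_
  simp

theorem speed_of_regen {Ω : Type*} [MeasurableSpace Ω] (ν : Measure Ω) [IsProbabilityMeasure ν]
    (T : Ω → Ω) (hT : MeasurePreserving T ν ν) (τ : Ω → ℕ) (hτ : Measurable τ)
    (hτ1 : ∀ ω, 1 ≤ τ ω) (hint : Integrable (fun ω => (τ ω : ℝ)) ν)
    (d : ℕ → Ω → ℝ) (hd : ∀ n, Measurable (d n)) (hd0 : ∀ ω, d 0 ω = 0) (hnn : ∀ n ω, 0 ≤ d n ω)
    (hlip : ∀ n ω, |d (n + 1) ω - d n ω| ≤ 1)
    (hsub : ∀ᵐ ω ∂ν, ∀ m n, d ((∑ k ∈ Finset.range m, τ (T^[k] ω)) + n) ω ≤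
      d (∑ k ∈ Finset.range m, τ (T^[k] ω)) ω + d n (T^[m] ω)) :
    ∃ L : Ω → ℝ, Measurable L ∧ ∀ᵐ ω ∂ν, Tendsto (fun n : ℕ => d n ω / n) atTop (𝓝 (L ω)) := by
  set S : ℕ → Ω → ℕ := fun m ω => ∑ k ∈ Finset.range m, τ (T^[k] ω) with hS
  have hSm : ∀ m, Measurable (S m) := fun m =>
    Finset.measurable_sum _ fun k _ => hτ.comp (hT.measurable.iterate k)
  have hSadd : ∀ m n ω, S (m + n) ω = S m ω + S n (T^[m] ω) := by
    intro m n ω
    simp only [hS]
    rw [Finset.sum_range_add]
    congr 1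
    apply Finset.sum_congr rfl
    intro k _
    rw [← iterate_add_apply, add_comm]
  have hdS : ∀ m, Measurable (fun ω => d (S m ω) ω) := by
    intro m
    have h1 : Measurable (fun p : ℕ × Ω => d p.1 p.2) := measurable_from_prod_countable_right hd
    exact h1.comp ((hSm m).prodMk measurable_id)
  have hdle : ∀ n ω, d n ω ≤ n := by
    intro n ω
    induction n with
    | zero => simp [hd0]
    | succ n ih =>
      have := abs_le.1 (hlip n ω)
      push_cast
      linarith [this.2]
  have hS1 : ∀ ω, S 1 ω = τ ω := by intro ω; simp [hS]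
  obtain ⟨L1, hL1, h1⟩ := kingman ν T hT (fun m ω => d (S m ω) ω) hdS (fun m ω => hnn _ _)
    (by
      apply Integrable.mono' hint (hdS 1).aestronglyMeasurable
      refine ae_of_all _ fun ω => ?_
      rw [Real.norm_of_nonneg (hnn _ _), hS1]
      exact hdle _ _)
    (by
      filter_upwards [hsub] with ω h m n
      rw [hSadd]
      exact h m _)
  obtain ⟨L2, hL2, h2⟩ := kingman ν T hT (fun m ω => (S m ω : ℝ))
    (fun m => (measurable_from_top (f := fun n : ℕ => (n : ℝ))).comp (hSm m))
    (fun m ω => Nat.cast_nonneg _)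
    (by simpa [hS1] using hint)
    (ae_of_all _ fun ω m n => by rw [hSadd]; push_cast; exact le_rfl)
  refine ⟨fun ω => L1 ω / L2 ω, hL1.div hL2, ?_⟩
  filter_upwards [h1, h2] with ω h1 h2
  have hmono : StrictMono (fun m => S m ω) := by
    apply strictMono_nat_of_lt_succ
    intro m
    rw [hSadd m 1]
    have := hτ1 (T^[m] ω)
    rw [hS1]
    omega
  have hL2pos : 1 ≤ L2 ω := by
    apply ge_of_tendsto h2
    filter_upwards [eventually_gt_atTop 0] with m hm
    have hm' : (0 : ℝ) < m := by exact_mod_cast hm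
    rw [le_div_iff₀ hm', one_mul]
    exact_mod_cast hmono.le_apply
  exact interpolate (fun m => S m ω) (by simp [hS]) hmono (fun n => d n ω) (hd0 ω)
    (fun n => hlip n ω) (L1 ω) (L2 ω) (by linarith) h1 h2

end Pool.Agent.Helper42.Speed
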