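import Mathlib

/-!
# Kingman's subadditive ergodic theorem, nonnegative case

`kingman` : for a measure preserving map `T` of a probability space and a nonnegative
subadditive process `D` with `D 1` integrable, `D n / n` converges almost everywhere.
-/

set_option linter.unusedSectionVars false

namespace Pool.Agent.Helper42.Speed

open MeasureTheory Filter Topology ENNReal Function

variable {Ω : Type*} [MeasurableSpace Ω] {ν : Measure Ω} {T : Ω → Ω}

/-- running maximum `max_{0 ≤ k ≤ n} S_k` of Birkhoff sums -/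
noncomputable def runMax (T : Ω → Ω) (g : Ω → ℝ) : ℕ → Ω → ℝ
  | 0, _ => 0
  | n + 1, ω => max 0 (g ω + runMax T g n (T ω))

theorem runMax_nonneg (g : Ω → ℝ) (n : ℕ) (ω : Ω) : 0 ≤ runMax T g n ω := by
  cases n with
  | zero => exact le_rfl
  | succ n => exact le_max_left _ _

theorem runMax_mono_succ (g : Ω → ℝ) (n : ℕ) : ∀ ω : Ω, runMax T g n ω ≤ runMax T g (n + 1) ω := by
  induction n with
  | zero => exact fun ω => runMax_nonneg g 1 ω
  | succ n ih =>
    intro ω
    have := ih (T ω)
    simp only [runMax] at this ⊢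
    exact max_le_max le_rfl (by linarith)

theorem runMax_mono (g : Ω → ℝ) (ω : Ω) : Monotone (fun n => runMax T g n ω) :=
  monotone_nat_of_le_succ fun n => runMax_mono_succ g n ω

theorem birkhoffSum_le_runMax (g : Ω → ℝ) (n : ℕ) : ∀ ω : Ω, birkhoffSum T g n ω ≤ runMax T g n ω := by
  induction n with
  | zero => intro ω; simp [runMax]
  | succ n ih =>
    intro ω
    rw [birkhoffSum_succ']
    simp only [runMax]
    exact le_max_of_le_right (by linarith [ih (T ω)])

theorem measurable_runMax (hT : Measurable T) {g : Ω → ℝ} (hg : Measurable g) (n : ℕ) :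
    Measurable (runMax T g n) := by
  induction n with
  | zero => exact measurable_const
  | succ n ih => exact measurable_const.max (hg.add (ih.comp hT))

theorem integrable_runMax (hT : MeasurePreserving T ν ν) {g : Ω → ℝ} (hg : Integrable g ν)
    (n : ℕ) : Integrable (runMax T g n) ν := by
  induction n with
  | zero => exact integrable_zero _ _ _
  | succ n ih =>
    have h := (integrable_zero Ω ℝ ν).sup (hg.add (hT.integrable_comp_of_integrable ih))
    exact h

theorem integral_comp_mp (hT : MeasurePreserving T ν ν) {f : Ω → ℝ} (hf : Measurable f) :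
    ∫ ω, f (T ω) ∂ν = ∫ ω, f ω ∂ν := by
  have := integral_map_of_stronglyMeasurable (μ := ν) hT.measurable hf.stronglyMeasurable
  rw [hT.map_eq] at this
  exact this.symm

/-- Hopf's maximal lemma -/
theorem hopf (hT : MeasurePreserving T ν ν) {g : Ω → ℝ} (hgm : Measurable g)
    (hg : Integrable g ν) (n : ℕ) : 0 ≤ ∫ ω in {ω | 0 < runMax T g n ω}, g ω ∂ν := by
  cases n with
  | zero => simp [runMax]
  | succ n =>
    have hms : MeasurableSet {ω | 0 < runMax T g (n + 1) ω} :=
      measurableSet_lt measurable_const (measurable_runMax hT.measurable hgm (n + 1))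
    rw [← integral_indicator hms]
    have hi : Integrable (fun ω => runMax T g n (T ω)) ν :=
      hT.integrable_comp_of_integrable (integrable_runMax hT hg n)
    have h1 : ∫ ω, (runMax T g (n + 1) ω - runMax T g n (T ω)) ∂ν ≤
        ∫ ω, ({ω | 0 < runMax T g (n + 1) ω}.indicator g) ω ∂ν := by
      apply integral_mono
      · exact (integrable_runMax hT hg _).sub hi
      · exact hg.indicator hms
      · intro ω
        by_cases h : 0 < runMax T g (n + 1) ω
        · have h4 : ω ∈ {ω | 0 < runMax T g (n + 1) ω} := h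
          have h2 : runMax T g (n + 1) ω = max 0 (g ω + runMax T g n (T ω)) := rfl
          show runMax T g (n + 1) ω - runMax T g n (T ω) ≤ _
          rw [Set.indicator_of_mem h4]
          rcases max_choice 0 (g ω + runMax T g n (T ω)) with h3 | h3
          · rw [h2, h3] at h; exact absurd h (lt_irrefl _)
          · rw [h2, h3]; linarith
        · have h4 : ω ∉ {ω | 0 < runMax T g (n + 1) ω} := h
          show runMax T g (n + 1) ω - runMax T g n (T ω) ≤ _
          rw [Set.indicator_of_notMem h4]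
          have := runMax_nonneg (T := T) g n (T ω)
          linarith [not_lt.1 h]
    have h2 : ∫ ω, (runMax T g (n + 1) ω - runMax T g n (T ω)) ∂ν =
        ∫ ω, runMax T g (n + 1) ω ∂ν - ∫ ω, runMax T g n ω ∂ν := by
      rw [integral_sub (integrable_runMax hT hg _) hi,
        integral_comp_mp hT (measurable_runMax hT.measurable hgm n)]
    have h3 : ∫ ω, runMax T g n ω ∂ν ≤ ∫ ω, runMax T g (n + 1) ω ∂ν :=
      integral_mono (integrable_runMax hT hg _) (integrable_runMax hT hg _)
        (fun ω => runMax_mono_succ g n ω)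
    linarith

/-- the weak type maximal inequality -/
theorem maximal [IsProbabilityMeasure ν] (hT : MeasurePreserving T ν ν) {g : Ω → ℝ}
    (hgm : Measurable g) (hg : Integrable g ν) (hg0 : ∀ ω, 0 ≤ g ω) {c : ℝ} (hc : 0 < c) :
    ν {ω | ∃ n : ℕ, c * n < birkhoffSum T g n ω} ≤ ENNReal.ofReal ((∫ ω, g ω ∂ν) / c) := by
  set h : Ω → ℝ := fun ω => g ω - c with hdef
  have hhm : Measurable h := hgm.sub_const c
  have hh : Integrable h ν := hg.sub (integrable_const c)
  set E : ℕ → Set Ω := fun n => {ω | 0 < runMax T h n ω} with hEdef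
  have hmono : Monotone E := fun m n hmn ω hω => lt_of_lt_of_le hω (runMax_mono h ω hmn)
  have hsub : {ω | ∃ n : ℕ, c * n < birkhoffSum T g n ω} ⊆ ⋃ n, E n := by
    rintro ω ⟨n, hn⟩
    refine Set.mem_iUnion.2 ⟨n, ?_⟩
    have h1 : birkhoffSum T h n ω = birkhoffSum T g n ω - c * n := by
      simp [h, birkhoffSum, Finset.sum_sub_distrib, mul_comm]
    have h2 := birkhoffSum_le_runMax (T := T) h n ω
    have h3 : 0 < runMax T h n ω := by linarith
    exact h3
  have hEn : ∀ n, ν (E n) ≤ ENNReal.ofReal ((∫ ω, g ω ∂ν) / c) := by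
    intro n
    have h1 : 0 ≤ ∫ ω in E n, h ω ∂ν := hopf hT hhm hh n
    have h2 : ∫ ω in E n, h ω ∂ν = ∫ ω in E n, g ω ∂ν - c * (ν.real (E n)) := by
      rw [integral_sub hg.integrableOn (integrable_const c).integrableOn]; simp [mul_comm]
    have h3 : ∫ ω in E n, g ω ∂ν ≤ ∫ ω, g ω ∂ν := setIntegral_le_integral hg (ae_of_all _ hg0)
    have h4 : ν.real (E n) ≤ (∫ ω, g ω ∂ν) / c := by rw [le_div_iff₀ hc]; linarith
    rw [← ENNReal.ofReal_toReal (measure_ne_top ν (E n))]
    exact ENNReal.ofReal_le_ofReal h4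
  calc ν _ ≤ ν (⋃ n, E n) := measure_mono hsub
    _ = ⨆ n, ν (E n) := hmono.measure_iUnion
    _ ≤ _ := iSup_le hEn

theorem birkhoffSum_nonneg {X : Type*} (T : X → X) (g : X → ℝ) (hg : ∀ x, 0 ≤ g x) (n : ℕ)
    (x : X) : 0 ≤ birkhoffSum T g n x :=
  Finset.sum_nonneg fun _ _ => hg _

/-- the deterministic greedy bound -/
theorem greedy {X : Type*} (T : X → X) (D : ℕ → X → ℝ) (g : X → ℝ) (N : ℕ) (K a : ℝ)
    (hK : 0 ≤ K) (ha : 0 ≤ a) (hg : ∀ x, 0 ≤ g x) (hD0 : ∀ x, D 0 x = 0) (x : X)
    (hsub : ∀ j m n, D (m + n) (T^[j] x) ≤ D m (T^[j] x) + D n (T^[m] (T^[j] x)))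
    (hcase : ∀ j, D 1 (T^[j] x) ≤ g (T^[j] x) ∨
      ((∃ l : ℕ, 1 ≤ l ∧ l ≤ N ∧ D l (T^[j] x) ≤ l * a) ∧ D 1 (T^[j] x) ≤ K + g (T^[j] x))) :
    ∀ n j, D n (T^[j] x) ≤ n * a + (min n N : ℕ) * K + birkhoffSum T g n (T^[j] x) := by
  intro n
  induction n using Nat.strong_induction_on with
  | _ n ih =>
    intro j
    rcases Nat.eq_zero_or_pos n with rfl | hn
    · simp [hD0]
    obtain ⟨m, rfl⟩ : ∃ m, n = m + 1 := ⟨n - 1, by omega⟩
    have hstep : D (m + 1) (T^[j] x) ≤ D 1 (T^[j] x) + D m (T^[j + 1] x) := by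
      have := hsub j 1 m
      rwa [add_comm 1 m, ← iterate_add_apply, add_comm 1 j] at this
    have ihm := ih m (by omega) (j + 1)
    have hS : birkhoffSum T g (m + 1) (T^[j] x) =
        g (T^[j] x) + birkhoffSum T g m (T^[j + 1] x) := by
      rw [birkhoffSum_succ', iterate_succ_apply']
    rcases hcase j with h | ⟨⟨l, hl1, hlN, hl⟩, hK1⟩
    · have hmin : ((min m N : ℕ) : ℝ) * K ≤ ((min (m + 1) N : ℕ) : ℝ) * K := by
        apply mul_le_mul_of_nonneg_right _ hK
        exact_mod_cast min_le_min (Nat.le_succ m) le_rfl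
      rw [hS]; push_cast at *
      nlinarith
    · rcases le_or_gt l (m + 1) with hlm | hlm
      · obtain ⟨k, hk⟩ : ∃ k, m + 1 = l + k := ⟨m + 1 - l, by omega⟩
        have h1 : D (m + 1) (T^[j] x) ≤ D l (T^[j] x) + D k (T^[j + l] x) := by
          have := hsub j l k
          rwa [← iterate_add_apply, add_comm l j, ← hk] at this
        have h2 := ih k (by omega) (j + l)
        have h3 : birkhoffSum T g k (T^[j + l] x) ≤ birkhoffSum T g (m + 1) (T^[j] x) := by
          rw [hk, birkhoffSum_add, ← iterate_add_apply, add_comm l j]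
          linarith [birkhoffSum_nonneg T g hg l (T^[j] x)]
        have hmin : ((min k N : ℕ) : ℝ) * K ≤ ((min (m + 1) N : ℕ) : ℝ) * K := by
          apply mul_le_mul_of_nonneg_right _ hK
          exact_mod_cast min_le_min (by omega) le_rfl
        have h4 : ((m + 1 : ℕ) : ℝ) = l + k := by exact_mod_cast hk
        rw [h4]; nlinarith
      · have hmin : ((min m N : ℕ) : ℝ) * K + K ≤ ((min (m + 1) N : ℕ) : ℝ) * K := by
          have : (min (m + 1) N : ℕ) = min m N + 1 := by omega
          rw [this]; push_cast; linarith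
        rw [hS]; push_cast at *
        nlinarith

theorem kingman_aux (ν : Measure Ω) [IsProbabilityMeasure ν]
    (T : Ω → Ω) (hT : MeasurePreserving T ν ν) (D : ℕ → Ω → ℝ) (hmeas : ∀ n, Measurable (D n))
    (hD0 : ∀ ω, D 0 ω = 0)
    (hnn : ∀ n ω, 0 ≤ D n ω) (hint : Integrable (D 1) ν)
    (hsub : ∀ᵐ ω ∂ν, ∀ m n, D (m + n) ω ≤ D m ω + D n (T^[m] ω)) :
    ∃ L : Ω → ℝ, Measurable L ∧ ∀ᵐ ω ∂ν, Tendsto (fun n : ℕ => D n ω / n) atTop (𝓝 (L ω)) := by
  set F : Ω → ℝ≥0∞ := fun ω => liminf (fun n : ℕ => ENNReal.ofReal (D n ω / n)) atTop with hF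
  have hFm : Measurable F := Measurable.liminf fun n => ((hmeas n).div_const _).ennreal_ofReal
  -- integral of Birkhoff sums
  have hbs : ∀ n, Measurable (birkhoffSum T (D 1) n) := fun n =>
    Finset.measurable_sum _ fun k _ => (hmeas 1).comp (hT.measurable.iterate k)
  have hbi : ∀ n, Integrable (birkhoffSum T (D 1) n) ν := fun n =>
    integrable_finsetSum _ fun k _ => (hT.iterate k).integrable_comp_of_integrable hint
  have hbI : ∀ n : ℕ, ∫ ω, birkhoffSum T (D 1) n ω ∂ν = n * ∫ ω, D 1 ω ∂ν := by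
    intro n
    have : ∫ ω, birkhoffSum T (D 1) n ω ∂ν = ∑ k ∈ Finset.range n, ∫ ω, D 1 (T^[k] ω) ∂ν :=
      integral_finsetSum _ fun k _ => (hT.iterate k).integrable_comp_of_integrable hint
    rw [this]
    have h2 : ∀ k ∈ Finset.range n, ∫ ω, D 1 (T^[k] ω) ∂ν = ∫ ω, D 1 ω ∂ν :=
      fun k _ => integral_comp_mp (hT.iterate k) (hmeas 1)
    rw [Finset.sum_congr rfl h2]; simp
  -- subadditivity along orbits
  have hsubT : ∀ᵐ ω ∂ν, ∀ j m n, D (m + n) (T^[j] ω) ≤ D m (T^[j] ω) + D n (T^[m] (T^[j] ω)) :=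
    ae_all_iff.2 fun j => (hT.iterate j).quasiMeasurePreserving.ae hsub
  have hDle : ∀ᵐ ω ∂ν, ∀ n, D n ω ≤ birkhoffSum T (D 1) n ω := by
    filter_upwards [hsub] with ω h n
    induction n with
    | zero => simp [hD0]
    | succ n ih =>
      rw [birkhoffSum_succ]
      linarith [h n 1]
  have hFint : ∫⁻ ω, F ω ∂ν ≤ ENNReal.ofReal (∫ ω, D 1 ω ∂ν) := by
    calc ∫⁻ ω, F ω ∂ν ≤ liminf (fun n : ℕ => ∫⁻ ω, ENNReal.ofReal (D n ω / n) ∂ν) atTop :=
          lintegral_liminf_le fun n => ((hmeas n).div_const _).ennreal_ofReal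
      _ ≤ liminf (fun _ : ℕ => ENNReal.ofReal (∫ ω, D 1 ω ∂ν)) atTop := by
          refine liminf_le_liminf ?_ (by isBoundedDefault) (by isBoundedDefault)
          filter_upwards [eventually_gt_atTop 0] with n hn
          have hn' : (0 : ℝ) < n := by exact_mod_cast hn
          calc ∫⁻ ω, ENNReal.ofReal (D n ω / n) ∂ν
              ≤ ∫⁻ ω, ENNReal.ofReal (birkhoffSum T (D 1) n ω / n) ∂ν := by
                apply lintegral_mono_ae
                filter_upwards [hDle] with ω h
                exact ENNReal.ofReal_le_ofReal (div_le_div_of_nonneg_right (h n) hn'.le)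
            _ = ENNReal.ofReal (∫ ω, birkhoffSum T (D 1) n ω / n ∂ν) := by
                rw [ofReal_integral_eq_lintegral_ofReal ((hbi n).div_const _)]
                exact ae_of_all _ fun ω =>
                  div_nonneg (birkhoffSum_nonneg T _ (hnn 1) n ω) hn'.le
            _ = ENNReal.ofReal (∫ ω, D 1 ω ∂ν) := by
                rw [integral_div, hbI, mul_div_cancel_left₀ _ hn'.ne']
            _ ≤ _ := le_rfl
      _ = _ := by simp
  have hFfin : ∫⁻ ω, F ω ∂ν ≠ ∞ := ne_top_of_le_ne_top ENNReal.ofReal_ne_top hFint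
  have hFlt : ∀ᵐ ω ∂ν, F ω < ∞ := ae_lt_top hFm hFfin
  -- invariance
  have hle : ∀ᵐ ω ∂ν, F ω ≤ F (T ω) := by
    filter_upwards [hsub] with ω h
    apply le_of_forall_gt_imp_ge_of_dense
    intro c hc
    obtain ⟨c', hc'1, hc'2⟩ := exists_between hc
    have hfreq : ∃ᶠ n : ℕ in atTop, ENNReal.ofReal (D n (T ω) / n) < c' :=
      frequently_lt_of_liminf_lt (by isBoundedDefault) hc'1
    have hev : ∀ᶠ n : ℕ in atTop, ENNReal.ofReal (D 1 ω / (n + 1)) < c - c' := by
      have h1 : Tendsto (fun n : ℕ => ENNReal.ofReal (D 1 ω / (n + 1))) atTop (𝓝 0) := by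
        rw [← ENNReal.ofReal_zero]
        exact ENNReal.tendsto_ofReal (((tendsto_const_div_atTop_nhds_zero_nat (D 1 ω)).comp
          (tendsto_add_atTop_nat 1)).congr fun n => by simp)
      exact h1.eventually (gt_mem_nhds (tsub_pos_of_lt hc'2))
    have hres : ∃ᶠ n : ℕ in atTop, ENNReal.ofReal (D (n + 1) ω / ((n + 1 : ℕ) : ℝ)) ≤ c := by
      apply (hfreq.and_eventually (hev.and (eventually_gt_atTop 0))).mono
      rintro n ⟨h1, h2, h3⟩
      have hn' : (0 : ℝ) < n := by exact_mod_cast h3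
      have h4 : D (n + 1) ω ≤ D 1 ω + D n (T ω) := by
        have := h 1 n
        rwa [add_comm 1 n, iterate_one] at this
      have h5 : D (n + 1) ω / ((n + 1 : ℕ) : ℝ) ≤ D 1 ω / (n + 1) + D n (T ω) / n := by
        have h6 : D n (T ω) / ((n : ℝ) + 1) ≤ D n (T ω) / n :=
          div_le_div_of_nonneg_left (hnn _ _) hn' (by linarith)
        have h7 : D (n + 1) ω / ((n : ℝ) + 1) ≤ (D 1 ω + D n (T ω)) / ((n : ℝ) + 1) :=
          div_le_div_of_nonneg_right h4 (by linarith)
        push_cast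
        rw [add_div] at h7
        linarith
      calc ENNReal.ofReal (D (n + 1) ω / ((n + 1 : ℕ) : ℝ))
          ≤ ENNReal.ofReal (D 1 ω / (n + 1) + D n (T ω) / n) := ENNReal.ofReal_le_ofReal h5
        _ ≤ ENNReal.ofReal (D 1 ω / (n + 1)) + ENNReal.ofReal (D n (T ω) / n) :=
            ENNReal.ofReal_add_le
        _ ≤ (c - c') + c' := add_le_add h2.le h1.le
        _ = c := tsub_add_cancel_of_le hc'2.le
    have h8 : liminf (fun n : ℕ => ENNReal.ofReal (D (n + 1) ω / ((n + 1 : ℕ) : ℝ))) atTop ≤ c :=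
      liminf_le_of_frequently_le' hres
    have h9 := liminf_nat_add (fun n : ℕ => ENNReal.ofReal (D n ω / (n : ℝ))) 1
    rw [hF]
    simp only
    rw [← h9]
    exact h8
  have hinv : ∀ᵐ ω ∂ν, F ω = F (T ω) :=
    ae_eq_of_ae_le_of_lintegral_le hle hFfin (hFm.comp hT.measurable).aemeasurable
      (le_of_eq (hT.lintegral_comp hFm))
  have hinvT : ∀ᵐ ω ∂ν, ∀ j, F (T^[j] ω) = F ω := by
    have h1 : ∀ᵐ ω ∂ν, ∀ j, F (T^[j] ω) = F (T (T^[j] ω)) :=
      ae_all_iff.2 fun j => (hT.iterate j).quasiMeasurePreserving.ae hinv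
    filter_upwards [h1] with ω h j
    induction j with
    | zero => rfl
    | succ j ih => rw [iterate_succ_apply', ← h j, ih]
  -- upper bound
  have hupper : ∀ ε : ℝ, 0 < ε → ∀ᵐ ω ∂ν, ∀ᶠ n : ℕ in atTop,
      D n ω ≤ n * ((F ω).toReal + 3 * ε) := by
    intro ε hε
    set B : ℕ → Set Ω := fun N =>
      {ω | ∀ l : ℕ, 1 ≤ l → l ≤ N → l * ((F ω).toReal + ε) < D l ω} ∪ {ω | (N : ℝ) < D 1 ω}
      with hB
    have hBm : ∀ N, MeasurableSet (B N) := by
      intro N
      apply MeasurableSet.union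
      · have : {ω | ∀ l : ℕ, 1 ≤ l → l ≤ N → l * ((F ω).toReal + ε) < D l ω} =
            ⋂ l : ℕ, ⋂ _ : 1 ≤ l, ⋂ _ : l ≤ N, {ω | l * ((F ω).toReal + ε) < D l ω} := by
          ext ω; simp
        rw [this]
        exact MeasurableSet.iInter fun l => MeasurableSet.iInter fun _ =>
          MeasurableSet.iInter fun _ => measurableSet_lt
            (measurable_const.mul (hFm.ennreal_toReal.add_const _)) (hmeas l)
      · exact measurableSet_lt measurable_const (hmeas 1)
    set g : ℕ → Ω → ℝ := fun N => (B N).indicator (D 1) with hg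
    have hgm : ∀ N, Measurable (g N) := fun N => (hmeas 1).indicator (hBm N)
    have hgi : ∀ N, Integrable (g N) ν := fun N => hint.indicator (hBm N)
    have hg0 : ∀ N ω, 0 ≤ g N ω := fun N ω => Set.indicator_nonneg (fun ω _ => hnn 1 ω) ω
    have hglim : ∀ᵐ ω ∂ν, Tendsto (fun N => g N ω) atTop (𝓝 0) := by
      filter_upwards [hFlt] with ω hω
      have hfreq : ∃ᶠ n : ℕ in atTop, ENNReal.ofReal (D n ω / n) < F ω + ENNReal.ofReal ε := by
        apply frequently_lt_of_liminf_lt (by isBoundedDefault)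
        exact ENNReal.lt_add_right hω.ne (by simpa using hε)
      obtain ⟨l, hl, hl1⟩ := (hfreq.and_eventually (eventually_ge_atTop 1)).exists
      have hl' : D l ω ≤ l * ((F ω).toReal + ε) := by
        have hlp : (0 : ℝ) < l := by exact_mod_cast hl1
        have h1 : F ω + ENNReal.ofReal ε = ENNReal.ofReal ((F ω).toReal + ε) := by
          rw [ENNReal.ofReal_add ENNReal.toReal_nonneg hε.le, ENNReal.ofReal_toReal hω.ne]
        rw [h1] at hl
        have h2 := (ENNReal.ofReal_lt_ofReal_iff_of_nonneg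
          (div_nonneg (hnn l ω) hlp.le)).1 hl
        rw [div_lt_iff₀ hlp] at h2
        linarith
      obtain ⟨M, hM⟩ := exists_nat_ge (D 1 ω)
      apply tendsto_const_nhds.congr'
      filter_upwards [eventually_ge_atTop l, eventually_ge_atTop M] with N hN1 hN2
      symm
      apply Set.indicator_of_notMem
      rintro (h | h)
      · exact absurd (h l hl1 hN1) (not_lt.2 hl')
      · have : (M : ℝ) ≤ N := by exact_mod_cast hN2
        have h' : (N : ℝ) < D 1 ω := h
        linarith
    have hgint : Tendsto (fun N => ∫ ω, g N ω ∂ν) atTop (𝓝 0) := by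
      have := tendsto_integral_of_dominated_convergence (μ := ν) (F := g) (f := fun _ => (0 : ℝ))
        (D 1) (fun N => (hgm N).aestronglyMeasurable) hint
        (fun N => ae_of_all _ fun ω => by
          rw [Real.norm_of_nonneg (hg0 N ω)]
          exact Set.indicator_le_self' (fun ω _ => hnn 1 ω) ω) hglim
      simpa using this
    rw [ae_iff]
    have hbound : ∀ N, ν {ω | ¬ ∀ᶠ n : ℕ in atTop, D n ω ≤ n * ((F ω).toReal + 3 * ε)} ≤
        ENNReal.ofReal ((∫ ω, g N ω ∂ν) / ε) := by
      intro N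
      refine le_trans (measure_mono_ae ?_) (maximal hT (hgm N) (hgi N) (hg0 N) hε)
      filter_upwards [hsubT, hinvT] with ω h1 h2 h3
      by_contra hcon
      apply h3
      have hcon' : ∀ n : ℕ, birkhoffSum T (g N) n ω ≤ ε * n := by
        intro n
        by_contra h
        exact hcon ⟨n, not_le.1 h⟩
      have hgr := greedy T D (g N) N N ((F ω).toReal + ε) (Nat.cast_nonneg _)
        (by positivity) (hg0 N) hD0 ω h1 (by
          intro j
          by_cases hj : T^[j] ω ∈ B N
          · left; rw [hg]; simp only; rw [Set.indicator_of_mem hj]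
          · right
            have hj1 : ∃ l : ℕ, 1 ≤ l ∧ l ≤ N ∧ D l (T^[j] ω) ≤ l * ((F ω).toReal + ε) := by
              by_contra hcc
              apply hj
              left
              intro l hl1 hl2
              rw [h2 j]
              by_contra h
              exact hcc ⟨l, hl1, hl2, not_lt.1 h⟩
            refine ⟨hj1, ?_⟩
            have hj2 : D 1 (T^[j] ω) ≤ N := by
              by_contra h
              exact hj (Or.inr (not_le.1 h))
            linarith [hg0 N (T^[j] ω)])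
      obtain ⟨M, hM⟩ := exists_nat_ge ((N : ℝ) * N / ε)
      filter_upwards [eventually_ge_atTop M] with n hn
      have h4 := hgr n 0
      simp only [iterate_zero, id_eq] at h4
      have h5 : ((min n N : ℕ) : ℝ) * N ≤ N * N := by
        apply mul_le_mul_of_nonneg_right _ (Nat.cast_nonneg _)
        exact_mod_cast min_le_right n N
      have h6 : (N : ℝ) * N ≤ n * ε := by
        rw [div_le_iff₀ hε] at hM
        have : (M : ℝ) * ε ≤ n * ε := by
          apply mul_le_mul_of_nonneg_right _ hε.le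
          exact_mod_cast hn
        linarith
      nlinarith [hcon' n]
    have hlim : Tendsto (fun N => ENNReal.ofReal ((∫ ω, g N ω ∂ν) / ε)) atTop (𝓝 0) := by
      rw [← ENNReal.ofReal_zero]
      apply ENNReal.tendsto_ofReal
      simpa using hgint.div_const ε
    exact le_antisymm (ge_of_tendsto' hlim hbound) bot_le
  refine ⟨fun ω => (F ω).toReal, hFm.ennreal_toReal, ?_⟩
  have hup : ∀ᵐ ω ∂ν, ∀ k : ℕ, ∀ᶠ n : ℕ in atTop,
      D n ω ≤ n * ((F ω).toReal + 3 * (1 / ((k : ℝ) + 1))) :=
    ae_all_iff.2 fun k => hupper _ (by positivity)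
  filter_upwards [hup, hFlt] with ω h1 h2
  rw [tendsto_order]
  constructor
  · intro a ha
    rcases lt_or_ge a 0 with ha0 | ha0
    · exact Eventually.of_forall fun n =>
        lt_of_lt_of_le ha0 (div_nonneg (hnn n ω) (Nat.cast_nonneg _))
    · have h3 : ENNReal.ofReal a < F ω := (ENNReal.ofReal_lt_iff_lt_toReal ha0 h2.ne).2 ha
      have h4 := eventually_lt_of_lt_liminf h3 (by isBoundedDefault)
      filter_upwards [h4] with n hn
      exact (ENNReal.ofReal_lt_ofReal_iff_of_nonneg ha0).1 hn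
  · intro b hb
    obtain ⟨k, hk⟩ := exists_nat_one_div_lt (show 0 < (b - (F ω).toReal) / 3 by linarith)
    filter_upwards [h1 k, eventually_gt_atTop 0] with n hn hn0
    have hn' : (0 : ℝ) < n := by exact_mod_cast hn0
    rw [div_lt_iff₀ hn']
    nlinarith

/-- **Kingman's subadditive ergodic theorem**, nonnegative case -/
theorem kingman {Ω : Type*} [MeasurableSpace Ω] (ν : Measure Ω) [IsProbabilityMeasure ν]
    (T : Ω → Ω) (hT : MeasurePreserving T ν ν) (D : ℕ → Ω → ℝ) (hmeas : ∀ n, Measurable (D n))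
    (hnn : ∀ n ω, 0 ≤ D n ω) (hint : Integrable (D 1) ν)
    (hsub : ∀ᵐ ω ∂ν, ∀ m n, D (m + n) ω ≤ D m ω + D n (T^[m] ω)) :
    ∃ L : Ω → ℝ, Measurable L ∧ ∀ᵐ ω ∂ν, Tendsto (fun n : ℕ => D n ω / n) atTop (𝓝 (L ω)) := by
  obtain ⟨L, hL, hL2⟩ := kingman_aux ν T hT (fun n ω => if n = 0 then 0 else D n ω)
    (by intro n; by_cases h : n = 0
        · simp [h]
        · simpa [h] using hmeas n)
    (by simp) (by intro n ω; by_cases h : n = 0
                  · simp [h]
                  · simpa [h] using hnn n ω)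
    (by simpa using hint)
    (by
      filter_upwards [hsub] with ω h m n
      rcases Nat.eq_zero_or_pos m with rfl | hm
      · simp
      rcases Nat.eq_zero_or_pos n with rfl | hn
      · simp
      simpa [hm.ne', hn.ne'] using h m n)
  refine ⟨L, hL, ?_⟩
  filter_upwards [hL2] with ω h
  apply h.congr'
  filter_upwards [eventually_gt_atTop 0] with n hn
  simp [hn.ne']

end Pool.Agent.Helper42.Speed
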